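import Pool.Agent.helper73.SPV.Spec

set_option autoImplicit false

namespace Pool.Agent.SPV

open Matrix Module Pool.Agent.SHL Pool.Agent.H48SL

theorem CNT (hCYC : CYC_stmt) : CNT_stmt := by
  intro n p hp N
  induction N with
  | zero =>
    intro S hS
    have hf : S.Finite := hS
    refine ⟨S.ncard, fun j => ?_⟩
    rw [pow_zero, mul_one]
    exact Set.ncard_image_le hf
  | succ N ih =>
    intro S hS
    obtain ⟨F, g, T, hF, hT, h⟩ : ∃ (F : Set (SLn n)) (g : SLn n) (T : Set (SLn n)), F.Finite ∧ PB N T ∧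
      ∀ x ∈ S, ∃ f ∈ F, ∃ m : ℤ, ∃ t ∈ T, x = f * g ^ m * t := hS
    obtain ⟨C₁, hC₁⟩ := hCYC n p hp g
    obtain ⟨C₂, hC₂⟩ := ih T hT
    refine ⟨F.ncard * C₁ * C₂, fun j => ?_⟩
    have hne : NeZero (p ^ (j + 1)) := ⟨pow_ne_zero _ hp.ne_zero⟩
    have hfin : Finite (Matrix.SpecialLinearGroup (Fin n) (ZMod (p ^ (j + 1)))) :=
      Finite.of_injective (fun A => (A : Matrix (Fin n) (Fin n) (ZMod (p ^ (j + 1)))))
        Subtype.val_injective
    set R := red n (p ^ (j + 1)) with hR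
    have hsub : R '' S ⊆ (fun q : Matrix.SpecialLinearGroup (Fin n) (ZMod (p ^ (j + 1))) ×
        (Matrix.SpecialLinearGroup (Fin n) (ZMod (p ^ (j + 1))) ×
          Matrix.SpecialLinearGroup (Fin n) (ZMod (p ^ (j + 1)))) => q.1 * q.2.1 * q.2.2) ''
        ((R '' F) ×ˢ ((Set.range fun m : ℤ => R (g ^ m)) ×ˢ (R '' T))) := by
      rintro y ⟨x, hx, rfl⟩
      obtain ⟨f, hf, m, t, ht, rfl⟩ := h x hx
      refine ⟨(R f, (R (g ^ m), R t)), ⟨⟨f, hf, rfl⟩, ⟨m, rfl⟩, ⟨t, ht, rfl⟩⟩, ?_⟩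
      show R f * R (g ^ m) * R t = R (f * g ^ m * t)
      rw [map_mul, map_mul]
    have h1 := (Set.ncard_le_ncard hsub (Set.toFinite _)).trans (Set.ncard_image_le (Set.toFinite _))
    rw [Set.ncard_prod, Set.ncard_prod] at h1
    have h2 : (R '' F).ncard ≤ F.ncard := Set.ncard_image_le hF
    have h3 : (Set.range fun m : ℤ => R (g ^ m)).ncard ≤ C₁ * p ^ j := hC₁ j
    have h4 : (R '' T).ncard ≤ C₂ * (p ^ j) ^ N := hC₂ j
    calc (R '' S).ncard ≤ (R '' F).ncard * ((Set.range fun m : ℤ => R (g ^ m)).ncard * (R '' T).ncard) := h1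
      _ ≤ F.ncard * ((C₁ * p ^ j) * (C₂ * (p ^ j) ^ N)) :=
        Nat.mul_le_mul h2 (Nat.mul_le_mul h3 h4)
      _ = F.ncard * C₁ * C₂ * (p ^ j) ^ (N + 1) := by ring

end Pool.Agent.SPV
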